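import Pool.Agent.V8H47.ALT.Defs
import Pool.Agent.V8H47.LB.PDefs

/-!
# Alternating linear space machines with an auxiliary pushdown store
-/

namespace Pool.Agent.V8H47.LB

open Pool.Agent.V8H47.MH Pool.Agent.V8H47.ALT

/-- An alternating linear space machine with an auxiliary pushdown store: a machine with a set of
universal states. -/
structure ALP (α Γ : Type) extends LP α Γ where
  /-- the universal states -/
  U : Set Q

/-- The language accepted by an alternating machine. -/
def ALP.altLang {α Γ : Type} (M : ALP α Γ) : Language α :=
  {w | AltAcc (M.Step w) (fun c => c.q ∈ M.U) (fun c => c.q ∈ M.acc) (M.start w.length)}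

/-- The machine starts in a nonuniversal state, all its runs on inputs of length `n` have at most
`C ^ (n + 2)` steps for a constant `C`, and no run has `k` or more changes between universal and
nonuniversal states. -/
def ALP.Sig {α Γ : Type} (M : ALP α Γ) (k : ℕ) : Prop :=
  M.init ∉ M.U ∧ ∃ C : ℕ, ∀ (w : List α) (t j : ℕ) (c : Cf w.length M.Q M.B Γ),
    Run (M.Step w) (fun c => c.q ∈ M.U) (M.start w.length) t j c → t ≤ C ^ (w.length + 2) ∧ j < k

/-- Level `k` of the alternation hierarchy of exponential time linear space machines with an
auxiliary pushdown store: the first block of a run is existential, and there are at most `k`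
blocks. -/
def sigLP (k : ℕ) (α : Type) : Set (Language α) :=
  {L | ∃ (Γ : Type) (_ : Finite Γ) (M : ALP α Γ), M.Sig k ∧ M.altLang = L}

/-- The same with pushdown alphabet `Γ` and store contents in `R`. -/
def sigLPIn {Γ : Type} (R : Set (List Γ)) (k : ℕ) (α : Type) : Set (Language α) :=
  {L | ∃ M : ALP α Γ, M.Sig k ∧ M.ContentsIn R ∧ M.altLang = L}

/-- Level `k` of the alternation hierarchy of exponential time linear space machines (without a
store). -/
def sigLBA (k : ℕ) (α : Type) : Set (Language α) :=
  {L | ∃ M : ALP α Empty, M.Sig k ∧ M.altLang = L}

end Pool.Agent.V8H47.LB
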