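import Pool.Agent.V8H47.ALT.Thick
import Pool.Agent.V8H47.LB.GThick

/-!
# Thick store contents, over arbitrary devices: alternating machines
-/

namespace Pool.Agent.V8H47.LB

open Pool.Agent.V8H47.MH Pool.Agent.V8H47.ALT Relation

section thick

variable {O A Γ Δ K : Type} (init : K) (stp : K → O → Option Δ → Set (K × A × Op Δ))
  (nop : O → A) (u : List Γ) (N : ℕ) (e : Δ × Bool → List Γ)
  {S : Type} (obs : S → O) (app : A → S → S) (s0 : S) (W : Set K)

/-- universal states -/
def glab : TQ K Δ Γ → Prop
  | .pre _ => False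
  | .run q _ => q ∈ W
  | .psh q _ _ => q ∈ W
  | .pp q _ => q ∈ W

/-- The relation. -/
def GTP (c : K × S × List Δ) (x : TQ K Δ Γ × S × List Γ) : Prop :=
  match x.1 with
  | .pre l => c = (init, s0, []) ∧ x.2.1 = s0 ∧ ∃ p, u = p ++ l ∧ x.2.2 = p.reverse
  | .run _ _ => x = grep u e c
  | .psh q l d => c.1 = q ∧ c.2.1 = x.2.1 ∧ ∃ d' p rest, e d' = p ++ l ∧
      flg c.2.2 = d :: d' :: rest ∧ x.2.2 = p.reverse ++ code u e rest
  | .pp q l => c.1 = q ∧ c.2.1 = x.2.1 ∧ ∃ d p rest, e d = p ++ l ∧
      flg c.2.2 = d :: rest ∧ x.2.2 = p.reverse ++ code u e rest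

variable {init stp nop obs app s0 W}

theorem gtp_act (c : K × S × List Δ) (t : K × A × Op Δ) :
    GTP init u e s0 (t.1, app t.2.1 c.2.1, t.2.2.apply c.2.2)
      ((gAct e t.1 t.2.1 t.2.2 (flg c.2.2).head?).1,
        app (gAct e t.1 t.2.1 t.2.2 (flg c.2.2).head?).2.1 c.2.1,
        (gAct e t.1 t.2.1 t.2.2 (flg c.2.2).head?).2.2.apply (code u e (flg c.2.2).tail)) := by
  obtain ⟨q', d, op⟩ := t
  obtain ⟨q0, pos0, st0⟩ := c
  cases op with
  | keep => exact rfl
  | push g' =>
    cases st0 with
    | nil => simp [GTP, grep, gAct, flg, Op.apply]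
    | cons g st0 =>
      simp only [flg, List.head?_cons, gAct]
      refine ⟨rfl, rfl, (g, decide (st0 = [])), [], flg st0, rfl, ?_, ?_⟩
      · simp [Op.apply, flg]
      · simp [Op.apply]
  | pop =>
    cases st0 with
    | nil => simp [GTP, grep, gAct, flg, Op.apply]
    | cons g st0 =>
      cases st0 with
      | nil => simp [GTP, grep, gAct, flg, Op.apply]
      | cons g' st0 =>
        have e1 : decide (g' :: st0 = []) = false := by simp
        simp only [flg, List.head?_cons, e1, gAct]
        refine ⟨rfl, rfl, (g', decide (st0 = [])), e (g', decide (st0 = [])), flg st0,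
          by simp, ?_, ?_⟩
        · simp [Op.apply, flg]
        · simp [Op.apply, code_cons]

theorem mu_gAct (B : ℕ) (hB : N ≤ B) (he : ∀ d, (e d).length = N) (q : K) (d : A)
    (op : Op Δ) (x : Option (Δ × Bool)) : mu N (gAct e q d op x).1 ≤ B + 1 := by
  cases op with
  | keep => exact Nat.zero_le _
  | push g =>
    cases x with
    | none => exact Nat.zero_le _
    | some x => simp only [gAct, mu, he]; omega
  | pop =>
    rcases x with _ | ⟨x, _ | _⟩
    · exact Nat.zero_le _
    · simp only [gAct, mu]; omega
    · exact Nat.zero_le _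

theorem gthick_sim (h0 : init ∉ W) (hnop : ∀ s, app (nop (obs s)) s = s)
    (he : Function.Injective e) (hN : ∀ d, (e d).length = N)
    (B : ℕ) (hB : N ≤ B) (acc : Set K) :
    ASim (gstep obs app stp) (fun c => c.1 ∈ W) (fun c => c.1 ∈ acc)
      (gstep obs app (gStp init stp nop N e)) (fun x => glab W x.1)
      (fun x => x.1 ∈ {q | ∃ s ∈ acc, ∃ c, q = TQ.run s c})
      (GTP init u e s0) (fun x => isRun x.1) (fun x => mu N x.1) (B + 1) where
  lab := by
    rintro c ⟨q, pos, st⟩ h
    cases q with
    | pre l =>
      obtain ⟨rfl, _⟩ := h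
      simp only [glab, iff_false]
      exact h0
    | run q d =>
      simp only [GTP, grep, Prod.mk.injEq, TQ.run.injEq] at h
      simp only [glab]
      rw [h.1.1]
    | psh q l d =>
      obtain ⟨rfl, _⟩ := h
      exact Iff.rfl
    | pp q l =>
      obtain ⟨rfl, _⟩ := h
      exact Iff.rfl
  fin := by
    rintro c ⟨q, pos, st⟩ h hm
    cases q with
    | run q d =>
      simp only [GTP, grep, Prod.mk.injEq, TQ.run.injEq] at h
      simp only [Set.mem_setOf_eq, TQ.run.injEq]
      rw [← h.1.1]
      constructor
      · intro h1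
        exact ⟨_, h1, _, rfl, rfl⟩
      · rintro ⟨s, h1, _, rfl, _⟩
        exact h1
    | pre l => exact absurd hm (by simp [isRun])
    | psh q l d => exact absurd hm (by simp [isRun])
    | pp q l => exact absurd hm (by simp [isRun])
  fwd := by
    rintro c ⟨q, pos, st⟩ c' h hm ⟨t, ht, rfl⟩
    cases q with
    | run q d =>
      simp only [GTP, grep, Prod.mk.injEq, TQ.run.injEq] at h
      obtain ⟨⟨rfl, rfl⟩, rfl, rfl⟩ := h
      refine ⟨_, ⟨_, ⟨t, ?_, rfl⟩, rfl⟩, gtp_act u e c t⟩
      rw [flg_head]
      exact ht
    | pre l => exact absurd hm (by simp [isRun])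
    | psh q l d => exact absurd hm (by simp [isRun])
    | pp q l => exact absurd hm (by simp [isRun])
  bwd := by
    rintro c ⟨q, pos, st⟩ x' h hm ⟨y, hy, rfl⟩
    cases q with
    | run q d =>
      simp only [GTP, grep, Prod.mk.injEq, TQ.run.injEq] at h
      obtain ⟨⟨rfl, rfl⟩, rfl, rfl⟩ := h
      obtain ⟨t, ht, rfl⟩ := hy
      rw [flg_head] at ht
      exact ⟨⟨_, ⟨t, ht, rfl⟩, gtp_act u e c t⟩, mu_gAct N e B hB hN _ _ _ _⟩
    | pre l => exact absurd hm (by simp [isRun])
    | psh q l d => exact absurd hm (by simp [isRun])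
    | pp q l => exact absurd hm (by simp [isRun])
  nfin := by
    rintro c ⟨q, pos, st⟩ h hm ⟨s, _, d, h1⟩
    simp only at h1
    subst h1
    exact hm trivial
  nxt := by
    rintro c ⟨q, s, st⟩ h hm
    cases q with
    | run q d => exact absurd trivial hm
    | pre l =>
      cases l with
      | nil => exact ⟨_, (.run init none, nop (obs s), Op.keep), by simp only [gStp]; rfl, rfl⟩
      | cons a l => exact ⟨_, (.pre l, nop (obs s), Op.push a), by simp only [gStp]; rfl, rfl⟩
    | psh q l d =>
      cases l with
      | nil => exact ⟨_, (.run q (some d), nop (obs s), Op.keep), by simp only [gStp]; rfl, rfl⟩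
      | cons a l => exact ⟨_, (.psh q l d, nop (obs s), Op.push a), by simp only [gStp]; rfl, rfl⟩
    | pp q l =>
      obtain ⟨h1, h2, d, p, rest, h3, h4, h5⟩ := h
      simp only at h5
      subst h5
      have hlen : p.length + l.length = N := by rw [← hN d, h3]; simp
      rcases List.eq_nil_or_concat p with rfl | ⟨p', b, rfl⟩
      · refine ⟨_, (.run q (some d), nop (obs s), Op.keep), Or.inr ⟨?_, d, by simpa using h3, rfl⟩,
          rfl⟩
        simp only [List.length_nil] at hlen; omega
      · refine ⟨_, (.pp q (b :: l), nop (obs s), Op.pop), Or.inl ⟨?_, b, ?_, rfl⟩, rfl⟩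
        · simp only [List.concat_eq_append, List.length_append, List.length_cons,
            List.length_nil] at hlen
          omega
        · simp
  det := by
    rintro c ⟨xq, pos, st⟩ x' h hm ⟨t, ht, rfl⟩
    simp only at ht
    cases xq with
    | run q d => exact absurd trivial hm
    | pre l =>
      obtain ⟨h1, h1', p, h2, h3⟩ := h
      simp only at h1' h3
      subst h1 h1' h3
      cases l with
      | nil =>
        rw [gStp] at ht; rw [ht]
        refine ⟨?_, by simp [mu]⟩
        simp only [GTP, grep, flg, List.head?_nil, List.tail_nil, code, List.flatMap_nil,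
          List.nil_append, Op.apply, hnop]
        rw [h2, List.append_nil]
      | cons a l =>
        rw [gStp] at ht; rw [ht]
        exact ⟨⟨rfl, hnop _, p ++ [a], by simp [h2], by simp [Op.apply]⟩, by simp [mu]⟩
    | psh q l d =>
      obtain ⟨h1, h2, d', p, rest, h3, h4, h5⟩ := h
      simp only at h2 h5
      subst h2 h5
      cases l with
      | nil =>
        rw [gStp] at ht; rw [ht]
        refine ⟨?_, by simp [mu]⟩
        simp only [GTP, grep, h1, h4, List.head?_cons, List.tail_cons, code_cons, Op.apply, hnop]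
        rw [h3, List.append_nil]
      | cons a l =>
        rw [gStp] at ht; rw [ht]
        exact ⟨⟨h1, (hnop _).symm, d', p ++ [a], rest, by simp [h3], h4, by simp [Op.apply]⟩,
          by simp [mu]⟩
    | pp q l =>
      obtain ⟨h1, h2, d, p, rest, h3, h4, h5⟩ := h
      simp only at h2 h5
      subst h2 h5
      have hlen : p.length + l.length = N := by rw [← hN d, h3]; simp
      rcases ht with ⟨hl, a, ha, rfl⟩ | ⟨hl, d', hd', rfl⟩
      · rcases List.eq_nil_or_concat p with rfl | ⟨p', b, rfl⟩
        · simp only [List.length_nil] at hlen; omega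
        · simp only [List.concat_eq_append, List.reverse_append, List.reverse_cons,
            List.reverse_nil, List.nil_append, List.cons_append, List.head?_cons,
            Option.some.injEq] at ha
          subst ha
          refine ⟨⟨h1, (hnop _).symm, d, p', rest, by simp [h3], h4, by simp [Op.apply]⟩, ?_⟩
          simp only [mu, List.length_cons]; omega
      · have : p = [] := by
          apply List.eq_nil_of_length_eq_zero; omega
        subst this
        simp only [List.nil_append] at h3
        have : d' = d := he (hd'.trans h3.symm)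
        subst this
        refine ⟨?_, by simp [mu]⟩
        simp only [GTP]
        simp [grep, h1, h4, Op.apply, hnop]

end thick

end Pool.Agent.V8H47.LB
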