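import Pool.Agent.V8H47.ALB.Thin

/-!
# The dichotomy for the store contents of alternating linear space machines
-/

namespace Pool.Agent.V8H47.LB

open Pool.Agent.V8H47.MH Pool.Agent.V8H47.ALT Relation

variable {α Γ : Type}

/-- a machine without a store as a machine with an empty store -/
def ALP.toSt (M : ALP α Empty) (Γ : Type) : ALP α Γ where
  toLP := M.toLP.toSt Γ
  U := M.U

theorem ALP.toSt_sim (M : ALP α Empty) (Γ : Type) (w : List α) :
    ASim (M.Step w) (fun c => c.q ∈ M.U) (fun c => c.q ∈ M.acc)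
      ((M.toSt Γ).Step w) (fun c => c.q ∈ (M.toSt Γ).U) (fun c => c.q ∈ (M.toSt Γ).acc)
      (fun c d => d.q = c.q ∧ d.tape = c.tape) (fun _ => True) (fun _ => 0) 0 := by
  have h0 : ∀ l : List Empty, l = [] := by
    intro l
    cases l with
    | nil => rfl
    | cons g _ => exact g.elim
  refine bisim _ ?_ ?_ ?_ ?_
  · rintro c d ⟨h, _⟩
    rw [h]; rfl
  · rintro c d ⟨h, _⟩
    rw [h]; rfl
  · rintro ⟨q, T, st⟩ ⟨q', T', st'⟩ c' ⟨h1, h2⟩ ⟨t, ht, rfl⟩
    simp only at h1 h2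
    subst h1 h2
    have := h0 st
    subst this
    exact ⟨_, ⟨(t.1, t.2.1, t.2.2.1, Op.keep), ⟨t, ht, rfl⟩, rfl⟩, rfl, rfl⟩
  · rintro ⟨q, T, st⟩ ⟨q', T', st'⟩ d' ⟨h1, h2⟩ ⟨_, ⟨t, ht, rfl⟩, rfl⟩
    simp only at h1 h2
    subst h1 h2
    have := h0 st
    subst this
    exact ⟨_, ⟨t, ht, rfl⟩, rfl, rfl⟩

/-- **The dichotomy for store contents.** -/
theorem alp_dichotomy [Finite Γ] {R : Language Γ} (hreg : R.IsRegular) (h0 : [] ∈ R) :
    (PolyGrowth (R : Set (List Γ)) → ∀ (k : ℕ) (α : Type),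
      sigLPIn (R : Set (List Γ)) k α = sigLBA k α) ∧
    (¬ PolyGrowth (R : Set (List Γ)) → ∀ (k : ℕ) (α : Type),
      sigLPIn (R : Set (List Γ)) k α = sigLP k α) := by
  obtain ⟨σ, _, A, rfl⟩ := hreg
  have hst : A.start ∈ A.accept := h0
  constructor
  · intro hp k α
    have hth : ¬ Thick (A.accepts : Set (List Γ)) := fun h => not_polyGrowth_of_thick h hp
    apply Set.Subset.antisymm
    · rintro L ⟨M, h1, h2, rfl⟩
      exact lp_thin_alt (thinA_of_not_thick hst hth) M h1 h2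
    · rintro L ⟨M, ⟨h1, C, hC⟩, rfl⟩
      have hsim := fun w => M.toSt_sim Γ w
      refine ⟨M.toSt Γ, ⟨h1, C, ?_⟩, toSt_contents h0, ?_⟩
      · intro w t j c hc
        obtain ⟨t', c', g1, _, g2⟩ := (hsim w).run (a₀ := M.start w.length) ⟨rfl, rfl⟩ le_rfl hc
        have g3 := hC w t' j c' g1
        exact ⟨by omega, g3.2⟩
      · ext w
        exact ((hsim w).iff_acc (a := M.start w.length)
          (b := (M.toSt Γ).start w.length) ⟨rfl, rfl⟩).symm
  · intro hp k α
    have hth : Thick (A.accepts : Set (List Γ)) := by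
      by_contra hcon
      exact hp (polyGrowth_of_thin (thinA_of_not_thick hst hcon))
    apply Set.Subset.antisymm
    · rintro L ⟨M, h1, _, rfl⟩
      exact ⟨Γ, inferInstance, M, h1, rfl⟩
    · rintro L ⟨Δ, _, M, h1, rfl⟩
      exact lp_thick_alt hth M h1

end Pool.Agent.V8H47.LB
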