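import Pool.Agent.V8H47.ALB.GThick
import Pool.Agent.V8H47.ALB.Defs
import Pool.Agent.V8H47.LB.PMain

/-!
# Thick store contents: alternating linear space machines
-/

namespace Pool.Agent.V8H47.LB

open Pool.Agent.V8H47.MH Pool.Agent.V8H47.ALT Relation

variable {α Γ : Type}

/-- the generic form of the steps -/
theorem gs_sim (M : ALP α Γ) (w : List α) :
    ASim (M.Step w) (fun c => c.q ∈ M.U) (fun c => c.q ∈ M.acc)
      (gstep (ob w) ac (gs M.toLP)) (fun x => x.1 ∈ M.U) (fun x => x.1 ∈ M.acc)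
      (fun c x => x = (c.q, c.tape, c.st)) (fun _ => True) (fun _ => 0) 0 := by
  refine bisim _ ?_ ?_ ?_ ?_
  · rintro c x rfl
    exact Iff.rfl
  · rintro c x rfl
    exact Iff.rfl
  · rintro c x c' rfl ⟨t, ht, rfl⟩
    exact ⟨_, ⟨(t.1, (t.2.1, t.2.2.1), t.2.2.2), ht, rfl⟩, rfl⟩
  · rintro c x x' rfl ⟨t, ht, rfl⟩
    exact ⟨_, ⟨(t.1, t.2.1.1, t.2.1.2, t.2.2), ht, rfl⟩, rfl⟩

section mk
variable {K B : Type} {F : Set K} {hF : F.Finite} {hB : Finite B} {blank : B} {init : K}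
    {hi : init ∈ F} {acc : Set K}
    {stp : K → Sym α × B → Option Γ → Set (K × (B × Dir) × Op Γ)}

theorem mkLP_sim (hcl : ∀ q ∈ F, ∀ a g, ∀ t ∈ stp q a g, t.1 ∈ F) (V : Set K) (w : List α) :
    ASim (gstep (ob w) ac stp) (fun x => x.1 ∈ V) (fun x => x.1 ∈ acc)
      ((mkLP F hF hB blank init hi acc stp).Step w) (fun c => c.q.1 ∈ V)
      (fun c => c.q ∈ (mkLP F hF hB blank init hi acc stp).acc)
      (fun x c => x = (c.q.1, c.tape, c.st)) (fun _ => True) (fun _ => 0) 0 := by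
  refine bisim _ ?_ ?_ ?_ ?_
  · rintro x c rfl
    exact Iff.rfl
  · rintro x c rfl
    exact Iff.rfl
  · rintro x ⟨⟨q, hq⟩, T, st⟩ x' rfl ⟨t, ht, rfl⟩
    exact ⟨_, ⟨(⟨t.1, hcl _ hq _ _ t ht⟩, t.2.1.1, t.2.1.2, t.2.2), ht, rfl⟩, rfl⟩
  · rintro x ⟨⟨q, hq⟩, T, st⟩ c' rfl ⟨⟨⟨q', hq'⟩, t⟩, ht, rfl⟩
    exact ⟨_, ⟨(q', (t.1, t.2.1), t.2.2), ht, rfl⟩, rfl⟩

end mk

theorem exp_time (b0 C : ℕ) : ∃ C', ∀ n, b0 + (b0 + 1) * C ^ (n + 2) ≤ C' ^ (n + 2) := by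
  refine ⟨(b0 + 1) * (C + 1) * 2, fun n => ?_⟩
  have h1 : C ^ (n + 2) ≤ (C + 1) ^ (n + 2) := Nat.pow_le_pow_left (by omega) _
  have h2 : 1 ≤ (C + 1) ^ (n + 2) := Nat.pow_pos (by omega)
  have h3 : b0 + 1 ≤ (b0 + 1) ^ (n + 2) := Nat.le_self_pow (by omega) _
  have h4 : 2 ≤ 2 ^ (n + 2) := Nat.le_self_pow (by omega) _
  calc b0 + (b0 + 1) * C ^ (n + 2)
      ≤ (b0 + 1) * (C + 1) ^ (n + 2) + (b0 + 1) * (C + 1) ^ (n + 2) := by
        refine Nat.add_le_add ?_ (Nat.mul_le_mul_left _ h1)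
        calc b0 ≤ (b0 + 1) * 1 := by omega
          _ ≤ _ := Nat.mul_le_mul_left _ h2
    _ = (b0 + 1) * (C + 1) ^ (n + 2) * 2 := by ring
    _ ≤ (b0 + 1) ^ (n + 2) * (C + 1) ^ (n + 2) * 2 ^ (n + 2) := by gcongr
    _ = _ := by rw [mul_pow, mul_pow]

/-- **Thick contents.** -/
theorem lp_thick_alt [Finite Γ] {R : Set (List Γ)} (hth : Thick R) {Δ : Type} [Finite Δ]
    (M : ALP α Δ) {k : ℕ} (hS : M.Sig k) :
    ∃ M' : ALP α Γ, M'.Sig k ∧ M'.ContentsIn R ∧ M'.altLang = M.altLang := by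
  obtain ⟨u, N, e, he, hN, hR⟩ := exists_code (D := Δ × Bool) hth
  obtain ⟨h0, C, hC⟩ := hS
  have := M.finQ
  have hB := M.finB
  set b := max u.length N with hb
  have hi : (TQ.pre u : TQ M.Q Δ Γ) ∈ {q : TQ M.Q Δ Γ | q.len ≤ b} :=
    show u.length ≤ max u.length N from le_max_left _ _
  let nop : Sym α × M.B → M.B × Dir := fun a => (a.2, Dir.S)
  have hnop : ∀ (w : List α) (T : Tape w.length M.B), ac (nop (ob w T)) T = T := by
    intro w T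
    simp only [nop, ob, ac]
    obtain ⟨p, C⟩ := T
    rw [act_self]
    rfl
  have hcl : ∀ q ∈ {q : TQ M.Q Δ Γ | q.len ≤ b}, ∀ a g,
      ∀ t ∈ gStp M.init (gs M.toLP) nop N e q a g, t.1 ∈ {q : TQ M.Q Δ Γ | q.len ≤ b} :=
    fun q hq a g t ht => closed_gStp M.init (gs M.toLP) nop N e b (le_max_right _ _) hN q hq a g t ht
  let M' : LP α Γ := mkLP {q : TQ M.Q Δ Γ | q.len ≤ b} (TQ.finite b) hB M.blank (TQ.pre u) hi
    {q | ∃ s ∈ M.acc, ∃ c, q = TQ.run s c} (gStp M.init (gs M.toLP) nop N e)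
  let M'' : ALP α Γ := { M' with U := {q : M'.Q | glab M.U q.1} }
  have h1 := fun w => gs_sim M w
  have h2 := fun w : List α => gthick_sim (init := M.init) (stp := gs M.toLP) (nop := nop) (u := u)
    (N := N) (e := e) (obs := ob w) (app := ac) (s0 := tp0 w.length M.blank) (W := M.U)
    h0 (hnop w) he hN b (le_max_right _ _) M.acc
  have h3 := fun w => mkLP_sim (hF := TQ.finite b) (hB := hB) (blank := M.blank) (hi := hi)
    (acc := {q | ∃ s ∈ M.acc, ∃ c, q = TQ.run s c}) hcl {q | glab M.U q} w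
  have hP : ∀ w : List α, GTP M.init u e (tp0 w.length M.blank)
      ((M.init, tp0 w.length M.blank, []) : M.Q × Tape w.length M.B × List Δ)
      (.pre u, tp0 w.length M.blank, []) := fun w => ⟨rfl, rfl, [], rfl, rfl⟩
  have hμ : mu N (TQ.pre u : TQ M.Q Δ Γ) ≤ b + 1 := by
    simp only [mu, hb]; omega
  obtain ⟨C', hC'⟩ := exp_time (b + 1) C
  refine ⟨M'', ⟨id, C', ?_⟩, ?_, ?_⟩
  · intro w t j c hc
    obtain ⟨t1, x1, g1, _, g2⟩ := (h3 w).run (a₀ := (.pre u, tp0 w.length M.blank, [])) rfl le_rfl hc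
    obtain ⟨t2, x2, g3, _, g4⟩ := (h2 w).run (hP w) hμ g1
    obtain ⟨t3, x3, g5, _, g6⟩ := (h1 w).run (a₀ := M.start w.length) rfl le_rfl g3
    have g7 := hC w t3 j x3 g5
    have g8 := hC' w.length
    have g9 : (b + 1 + 1) * t2 ≤ (b + 1 + 1) * C ^ (w.length + 2) :=
      Nat.mul_le_mul_left _ (by omega)
    exact ⟨by omega, g7.2⟩
  · intro w c hc
    exact (gthick (init := M.init) (stp := gs M.toLP) (s0 := tp0 w.length M.blank) u N e
      (hnop w) he hN R hR M.acc).2 _ (mkLP_to (hF := TQ.finite b) (hi := hi) hc)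
  · ext w
    exact ((((h1 w).iff_acc (a := M.start w.length) rfl).trans ((h2 w).iff_acc (hP w))).trans
      ((h3 w).iff_acc rfl)).symm

end Pool.Agent.V8H47.LB
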