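import Pool.Agent.V8H47.ALB.Thick
import Pool.Agent.V8H47.ALT.DSim

/-!
# Thin store contents: alternating linear space machines
-/

namespace Pool.Agent.V8H47.LB

open Pool.Agent.V8H47.MH Pool.Agent.V8H47.ALT Relation

/-! ### Counters -/

section cnt

variable {α B K J : Type} {k : ℕ}
  {stp : K → Sym α × B → (J → Prop) → Set (K × (B × Dir) × (J → Dir))}

/-- the state of the counter machine -/
def sqK : SQ K J → K
  | .main q _ => q
  | .mk q _ => q
  | .gl q _ => q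
  | .sw q _ _ => q
  | .gr q _ => q

/-- main configurations -/
def sqMain {n : ℕ} (x : SQ K J × Tape n (CB B J k)) : Prop := SF (Set.univ : Set K) x

theorem main_of_not {n : ℕ} {x : SQ K J × Tape n (CB B J k)} (h : ¬ sqMain x) :
    ∀ q z, x.1 ≠ .main q z := fun q z hq => h ⟨q, trivial, z, hq⟩

/-- the distance to a main configuration -/
def sqNu {n : ℕ} (x : SQ K J × Tape n (CB B J k)) : ℕ :=
  match x.1 with
  | .main _ _ => 0
  | .mk _ _ => 3 * (n + 2) + 5
  | .gl _ _ => 2 * (n + 2) + 3 + x.2.pos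
  | .sw _ _ _ => (n + 2) + 2 + ((n + 2) - x.2.pos)
  | .gr _ _ => x.2.pos + 1

theorem sqNu_le {n : ℕ} (x : SQ K J × Tape n (CB B J k)) : sqNu x ≤ 3 * (n + 2) + 5 := by
  have := x.2.pos.2
  obtain ⟨q, T⟩ := x
  cases q <;> simp only [sqNu] at this ⊢ <;> omega

theorem tape_self {n : ℕ} (T : Tape n B) (b : B) (d : Dir) (hb : b = T.cell T.pos)
    (hd : d.move n T.pos = T.pos) : T.act b d = T := by
  subst hb
  unfold Tape.act
  ext1
  · exact Fin.ext hd
  · simp

theorem sq_inv {w : List α} {x y : SQ K J × Tape w.length (CB B J k)} (hx : ¬ sqMain x)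
    (hs : pstep (pS k stp) w x y) : sqK y.1 = sqK x.1 := by
  obtain ⟨q, T⟩ := x
  obtain ⟨t, ht, rfl⟩ := hs
  cases q with
  | main q z => exact absurd ⟨q, trivial, z, rfl⟩ hx
  | mk q o => rw [pS] at ht; rw [ht]; rfl
  | gl q o => rcases ht with ⟨_, rfl⟩ | ⟨_, rfl⟩ <;> rfl
  | sw q c z => rcases ht with ⟨_, rfl⟩ | ⟨_, _, rfl⟩ <;> rfl
  | gr q z => rcases ht with ⟨_, rfl⟩ | ⟨_, rfl⟩ <;> rfl

theorem sq_dec {w : List α} {x y : SQ K J × Tape w.length (CB B J k)} (hx : ¬ sqMain x)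
    (hs : pstep (pS k stp) w x y) : sqNu y < sqNu x ∨ y = x := by
  obtain ⟨q, T⟩ := x
  have hp := T.pos.2
  obtain ⟨t, ht, rfl⟩ := hs
  cases q with
  | main q z => exact absurd ⟨q, trivial, z, rfl⟩ hx
  | mk q o =>
    rw [pS] at ht; rw [ht]
    left
    simp only [sqNu, Tape.act, Dir.move]
    omega
  | gl q o =>
    rcases ht with ⟨h1, rfl⟩ | ⟨h1, rfl⟩
    · left
      simp only at h1
      rw [Ne, symAt_left] at h1
      simp only [sqNu, Tape.act, Dir.move]
      omega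
    · left
      simp only at h1
      rw [symAt_left] at h1
      simp only [sqNu, Tape.act, Dir.move]
      omega
  | sw q c z =>
    rcases ht with ⟨h1, rfl⟩ | ⟨h1, _, rfl⟩
    · left
      simp only at h1
      rw [Ne, symAt_right] at h1
      simp only [sqNu, Tape.act, Dir.move]
      omega
    · left
      simp only at h1
      rw [symAt_right] at h1
      simp only [sqNu, Tape.act, Dir.move]
      omega
  | gr q z =>
    rcases ht with ⟨h1, rfl⟩ | ⟨h1, rfl⟩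
    · by_cases h0 : (T.pos : ℕ) = 0
      · right
        simp only [Prod.mk.injEq, true_and]
        exact tape_self T _ _ rfl (by simp [Dir.move, h0])
      · left
        simp only [sqNu, Tape.act, Dir.move]
        omega
    · left
      simp only [sqNu]
      omega

/-- steps of the counter machine -/
theorem cnt_fwd {w : List α} {x : K × Tape w.length B × (J → ℕ)} {t : K × (B × Dir) × (J → Dir)}
    (ht : t ∈ stp x.1 (ob w x.2.1) (fun j => x.2.2 j = 0))
    (h1 : ∀ j, x.2.2 j < (k + 2) ^ (w.length + 2))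
    (hR : ∀ j, t.2.2 j = Dir.R → x.2.2 j + 1 < (k + 2) ^ (w.length + 2)) :
    pstep (pS k stp) w (cenc (k := k) x) (SQ.mk t.1
        (fun j => eff (decide (x.2.2 j = 0)) (t.2.2 j)), ⟨(ac t.2.1 x.2.1).pos,
          fun i' => ((ac t.2.1 x.2.1).cell i', false,
            fun j => dig k (w.length + 2) (x.2.2 j) i')⟩) ∧
    DT (pstep (pS k stp) w) sqMain (SQ.mk t.1
        (fun j => eff (decide (x.2.2 j = 0)) (t.2.2 j)), ⟨(ac t.2.1 x.2.1).pos,
          fun i' => ((ac t.2.1 x.2.1).cell i', false,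
            fun j => dig k (w.length + 2) (x.2.2 j) i')⟩)
      (cenc (k := k) (t.1, ac t.2.1 x.2.1, fun j => (t.2.2 j).cmove (x.2.2 j))) := by
  have he := fun j => eff_cmove (z := decide (x.2.2 j = 0)) (o := t.2.2 j) (v := x.2.2 j) rfl
  have hv : ∀ j, (fun j => eff (decide (x.2.2 j = 0)) (t.2.2 j)) j = Dir.L →
      0 < x.2.2 j := fun j => (he j).2.1
  have hN : ∀ j, ((fun j => eff (decide (x.2.2 j = 0)) (t.2.2 j)) j).cmove (x.2.2 j) <
      (k + 2) ^ (w.length + 2) := by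
    intro j
    simp only
    rw [(he j).1]
    exact cmove_lt (h1 j) (hR j)
  constructor
  · refine ⟨(SQ.mk t.1 (fun j => eff (decide (x.2.2 j = 0)) (t.2.2 j)),
      (t.2.1.1, false, fun j => dig k (w.length + 2) (x.2.2 j) x.2.1.pos), t.2.1.2),
      ⟨t, ?_, rfl⟩, ?_⟩
    · simp only [cenc]
      rw [flags_eq]
      exact ht
    · rw [← first_step]
      rfl
  · have f2 := run_mid (k := k) (acc := (Set.univ : Set K)) (stp := stp) t.1 (ac t.2.1 x.2.1)
      (fun j => eff (decide (x.2.2 j = 0)) (t.2.2 j)) x.2.2 hv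
    have f3 := run_end (k := k) (acc := (Set.univ : Set K)) (stp := stp) t.1 (ac t.2.1 x.2.1)
      (fun j => eff (decide (x.2.2 j = 0)) (t.2.2 j)) x.2.2 hv hN
    have f4 : (fun j => ((fun j => eff (decide (x.2.2 j = 0)) (t.2.2 j)) j).cmove (x.2.2 j)) =
        fun j => (t.2.2 j).cmove (x.2.2 j) := funext fun j => (he j).1
    rw [f4] at f3
    exact ReflTransGen.trans f2 f3

theorem cnt_bwd {w : List α} {x : K × Tape w.length B × (J → ℕ)}
    {b : SQ K J × Tape w.length (CB B J k)} (h : pstep (pS k stp) w (cenc (k := k) x) b) :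
    ∃ t ∈ stp x.1 (ob w x.2.1) (fun j => x.2.2 j = 0), b = (SQ.mk t.1
        (fun j => eff (decide (x.2.2 j = 0)) (t.2.2 j)), ⟨(ac t.2.1 x.2.1).pos,
          fun i' => ((ac t.2.1 x.2.1).cell i', false,
            fun j => dig k (w.length + 2) (x.2.2 j) i')⟩) := by
  obtain ⟨t', ⟨t, ht, rfl⟩, rfl⟩ := h
  simp only [cenc] at ht ⊢
  rw [flags_eq] at ht
  refine ⟨t, ht, ?_⟩
  rw [← first_step]

end cnt

/-! ### The bound for the counters -/

section bnd

variable {O A Γ K σ : Type} [Finite σ] [Finite Γ] {D : DFA Γ σ} {init : K}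
  {stp : K → O → Option Γ → Set (K × A × Op Γ)} {S : Type} {obs : S → O} {app : A → S → S} {s0 : S}

theorem thinStp_bound (hT : ThinA D) (hG : ∀ c, gReach init stp obs app s0 c → Good D c.2.2)
    {N : ℕ} {c : K × S × List Γ} {x : (K × BS Γ σ) × S × (Fin (Nat.card σ) → ℕ)}
    (hP : GThinRel D init stp obs app s0 c x)
    (hN : ∀ c', gstep obs app stp c c' → c'.2.2.length < N)
    {t : (K × BS Γ σ) × A × (Fin (Nat.card σ) → Dir)}
    (ht : t ∈ thinStp D stp x.1 (obs x.2.1) (fun j => x.2.2 j = 0)) :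
    ∀ j, t.2.2 j = Dir.R → x.2.2 j + 1 < N := by
  obtain ⟨⟨q, E, hE⟩, s, cn⟩ := x
  obtain ⟨hr, h1, h2, h3, h4⟩ := hP
  simp only at h1 h2 h3 h4
  subst h1 h2 h3 h4
  have hg := hG c hr
  obtain ⟨⟨q', E'⟩, d⟩ := t
  obtain ⟨t, ht, h5, h6, h7⟩ := ht
  simp only at h5 h6 h7
  subst h5 h7
  have hz : (cnts D c.2.2 ((⟨(forget (enc D c.2.2)).2.length, hE⟩ : Fin (Nat.card σ)) : ℕ) = 0) =
      ((enc D c.2.2).1.2.2 = 0) := by
    simp only [forget_length, cnts_top]
  have hsp := shOp_spec hT t.2.2 hg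
  simp only at ht
  rw [hz, shTop_spec hT hg] at ht
  have hs : gstep obs app stp c (t.1, app t.2.1 c.2.1, t.2.2.apply c.2.2) := ⟨t, ht, rfl⟩
  have hlen := hN _ hs
  simp only at hlen
  intro j hj
  simp only at hj ⊢
  have h5 := hsp.2 j
  rw [← forget_length] at h5
  rw [hz] at hj
  rw [hj] at h5
  simp only [Dir.cmove] at h5
  rw [h5]
  exact lt_of_le_of_lt (cnts_le _ _) hlen

end bnd

/-! ### The simulation -/

section sim

variable {α Γ σ : Type} [Finite Γ] [Finite σ] {A : DFA Γ σ} (M : ALP α Γ) (k : ℕ) (w : List α)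

theorem grun_len {O A' S K : Type} {obs : S → O} {app : A' → S → S} {init : K} {s0 : S}
    {stp : K → O → Option Γ → Set (K × A' × Op Γ)} {U : K × S × List Γ → Prop} {t j : ℕ}
    {c : K × S × List Γ} (h : Run (gstep obs app stp) U (init, s0, []) t j c) :
    c.2.2.length ≤ t := by
  have key : ∀ c c' : K × S × List Γ, gstep obs app stp c c' →
      c'.2.2.length ≤ c.2.2.length + 1 := by
    rintro c c' ⟨t, _, rfl⟩
    cases h : t.2.2 with
    | keep => simp [Op.apply]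
    | push g => simp [Op.apply]
    | pop => simp only [Op.apply, List.length_tail]; omega
  induction h with
  | start => exact Nat.zero_le _
  | same _ h _ ih => have := key _ _ h; omega
  | alt _ h _ ih => have := key _ _ h; omega

variable (A) in
/-- The relation. -/
def LTP (c : M.Q × Tape w.length M.B × List Γ)
    (b : SQ (M.Q × BS Γ σ) (Fin (Nat.card σ)) × Tape w.length (CB M.B (Fin (Nat.card σ)) k)) :
    Prop :=
  (∃ t j, Run (gstep (ob w) ac (gs M.toLP)) (fun x => x.1 ∈ M.U)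
    (M.init, tp0 w.length M.blank, []) t j c) ∧
  ∃ x, GThinRel A M.init (gs M.toLP) (ob w) ac (tp0 w.length M.blank) c x ∧ b = cenc (k := k) x

variable {M k w}

theorem ltp_sim (hT : ThinA A)
    (hG : ∀ c, gReach M.init (gs M.toLP) (ob w) ac (tp0 w.length M.blank) c → Good A c.2.2)
    (hE : ∀ (t j : ℕ) (c : M.Q × Tape w.length M.B × List Γ),
      Run (gstep (ob w) ac (gs M.toLP)) (fun x => x.1 ∈ M.U)
        (M.init, tp0 w.length M.blank, []) t j c → t < (k + 2) ^ (w.length + 2)) :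
    BSim (gstep (ob w) ac (gs M.toLP)) (fun x => x.1 ∈ M.U) (fun x => x.1 ∈ M.acc)
      (pstep (pS k (thinStp A (gs M.toLP))) w) (fun x => (sqK x.1).1 ∈ M.U)
      (SF {q : M.Q × BS Γ σ | q.1 ∈ M.acc}) (LTP A M k w) sqMain sqNu
      (3 * (w.length + 2) + 5) where
  lab := by
    rintro c b ⟨_, x, hx, rfl⟩
    have h1 := hx.2.1
    change _ ↔ x.1.1 ∈ M.U
    rw [h1]
  fin := by
    rintro c b ⟨_, x, hx, rfl⟩
    have h1 := hx.2.1
    constructor
    · intro h
      exact ⟨x.1, by rw [Set.mem_setOf_eq, h1]; exact h, _, rfl⟩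
    · rintro ⟨q, hq, z, hz⟩
      simp only [cenc, SQ.main.injEq] at hz
      rw [← h1, hz.1]
      exact hq
  gm := by
    rintro b ⟨q, _, z, hz⟩
    exact ⟨q, trivial, z, hz⟩
  fwd := by
    rintro c b c' ⟨⟨t, j, hr⟩, x, hx, rfl⟩ hs
    obtain ⟨j', hr'⟩ := hr.next hs
    have hb : ∀ i, x.2.2 i < (k + 2) ^ (w.length + 2) := by
      intro i
      rw [hx.2.2.2.2]
      have := cnts_le (A := A) c.2.2 i
      have h2 := grun_len hr
      have h3 := hE _ _ _ hr
      simp only; omega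
    obtain ⟨x', ⟨s, hs1, hs2, rfl⟩, h2⟩ := gthin_sim (N := (k + 2) ^ (w.length + 2)) hT hG hx hs
      (by have := grun_len hr'; have := hE _ _ _ hr'; omega)
    obtain ⟨h3, h4⟩ := cnt_fwd (k := k) hs1 hb hs2
    exact ⟨_, _, h3, h4, ⟨_, _, hr'⟩, _, h2, rfl⟩
  bwd := by
    rintro c b b1 ⟨⟨t, j, hr⟩, x, hx, rfl⟩ hs
    have hb : ∀ i, x.2.2 i < (k + 2) ^ (w.length + 2) := by
      intro i
      rw [hx.2.2.2.2]
      have := cnts_le (A := A) c.2.2 i
      have h2 := grun_len hr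
      have h3 := hE _ _ _ hr
      simp only; omega
    obtain ⟨s, hs1, rfl⟩ := cnt_bwd hs
    have hs2 := thinStp_bound hT hG (N := (k + 2) ^ (w.length + 2)) hx (by
      intro c' hc'
      obtain ⟨j', hr'⟩ := hr.next hc'
      have := grun_len hr'
      have := hE _ _ _ hr'
      omega) hs1
    obtain ⟨h3, h4⟩ := cnt_fwd (k := k) hs1 hb hs2
    obtain ⟨c', h5, h6⟩ := gthin_sim' (N := (k + 2) ^ (w.length + 2)) hT hG hx
      ⟨s, hs1, hs2, rfl⟩
    obtain ⟨j', hr'⟩ := hr.next h5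
    exact ⟨c', _, h5, h4, ⟨_, _, hr'⟩, _, h6, rfl⟩
  inv := by
    intro x y hx hs
    rw [sq_inv hx hs]
  dec := fun x y hx hs => sq_dec hx hs
  bd := sqNu_le

theorem ltp_start : LTP A M k w (M.init, tp0 w.length M.blank, [])
    (SQ.main (M.init, sh0 A) (fun _ => true),
      ⟨⟨0, by omega⟩, fun _ => (M.blank, false, fun _ => 0)⟩) := by
  refine ⟨⟨0, 0, .start⟩, ((M.init, sh0 A), tp0 w.length M.blank, fun _ => 0),
    ⟨.refl, rfl, rfl, rfl, ?_⟩, ?_⟩
  · funext j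
    have := cnts_le (A := A) ([] : List Γ) j
    simp only [List.length_nil, Nat.le_zero] at this
    exact this.symm
  · simp only [cenc, decide_true, dig_zero, tp0]

end sim

/-- the machine of the counter machine -/
theorem cntLP_sim {α B K J : Type} [Finite J] {k : ℕ} {hK : Finite K} {hB : Finite B} {blank : B}
    {init : K} {acc : Set K}
    {stp : K → Sym α × B → (J → Prop) → Set (K × (B × Dir) × (J → Dir))} (V : Set K)
    (w : List α) :
    ASim (pstep (pS k stp) w) (fun x => sqK x.1 ∈ V) (SF acc)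
      ((cntLP k hK hB blank init acc stp).Step w) (fun c => sqK c.q ∈ V)
      (fun c => c.q ∈ (cntLP k hK hB blank init acc stp).acc)
      (fun x c => x = (c.q, c.tape) ∧ c.st = []) (fun _ => True) (fun _ => 0) 0 := by
  refine bisim _ ?_ ?_ ?_ ?_
  · rintro x c ⟨rfl, _⟩
    exact Iff.rfl
  · rintro x c ⟨rfl, _⟩
    exact Iff.rfl
  · rintro x ⟨q, T, st⟩ x' ⟨rfl, h⟩ ⟨t, ht, rfl⟩
    simp only at h
    subst h
    exact ⟨_, ⟨(t.1, t.2.1, t.2.2, Op.keep), ⟨ht, rfl⟩, rfl⟩, rfl, rfl⟩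
  · rintro x ⟨q, T, st⟩ c' ⟨rfl, h⟩ ⟨t, ⟨ht, h2⟩, rfl⟩
    simp only at h
    subst h
    refine ⟨_, ⟨(t.1, t.2.1, t.2.2.1), ht, rfl⟩, rfl, ?_⟩
    rw [h2]
    rfl

theorem exp_time2 (C : ℕ) : ∃ C', ∀ n, (3 * (n + 2) + 5) + ((3 * (n + 2) + 5) + 1) * C ^ (n + 2) ≤
    C' ^ (n + 2) := by
  refine ⟨9 * 2 * (C + 1) * 2, fun n => ?_⟩
  have h1 : C ^ (n + 2) ≤ (C + 1) ^ (n + 2) := Nat.pow_le_pow_left (by omega) _
  have h2 : 1 ≤ (C + 1) ^ (n + 2) := Nat.pow_pos (by omega)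
  have h5 : n + 2 < 2 ^ (n + 2) := Nat.lt_two_pow_self
  have h3 : (3 * (n + 2) + 5) + 1 ≤ (9 * 2) ^ (n + 2) := by
    rw [mul_pow]
    have h6 : 9 ≤ 9 ^ (n + 2) := Nat.le_self_pow (by omega) _
    calc (3 * (n + 2) + 5) + 1 ≤ 9 * (n + 2) := by omega
      _ ≤ 9 ^ (n + 2) * 2 ^ (n + 2) := Nat.mul_le_mul h6 h5.le
  have h4 : 2 ≤ 2 ^ (n + 2) := Nat.le_self_pow (by omega) _
  calc (3 * (n + 2) + 5) + ((3 * (n + 2) + 5) + 1) * C ^ (n + 2)
      ≤ (9 * 2) ^ (n + 2) * (C + 1) ^ (n + 2) + (9 * 2) ^ (n + 2) * (C + 1) ^ (n + 2) := by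
        refine Nat.add_le_add ?_ (Nat.mul_le_mul h3 h1)
        calc (3 * (n + 2) + 5) ≤ (9 * 2) ^ (n + 2) * 1 := by omega
          _ ≤ _ := Nat.mul_le_mul_left _ h2
    _ = (9 * 2) ^ (n + 2) * (C + 1) ^ (n + 2) * 2 := by ring
    _ ≤ (9 * 2) ^ (n + 2) * (C + 1) ^ (n + 2) * 2 ^ (n + 2) := by gcongr
    _ = _ := by rw [← mul_pow, ← mul_pow]

/-- **Thin contents.** -/
theorem lp_thin_alt {α Γ σ : Type} [Finite Γ] [Finite σ] {A : DFA Γ σ} (hT : ThinA A)
    (M : ALP α Γ) {k : ℕ} (hS : M.Sig k) (hM : M.ContentsIn (A.accepts : Set (List Γ))) :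
    ∃ M' : ALP α Empty, M'.Sig k ∧ M'.altLang = M.altLang := by
  obtain ⟨h0, C, hC⟩ := hS
  have := M.finQ
  have hB := M.finB
  have hfs := finite_shp (Γ := Γ) (σ := σ) (Nat.card σ)
  have hK : Finite (M.Q × BS Γ σ) := by
    have : Finite (BS Γ σ) := hfs
    infer_instance
  let N : LP α Empty := cntLP (J := Fin (Nat.card σ)) C hK hB M.blank (M.init, sh0 A)
    {q | q.1 ∈ M.acc} (thinStp A (gs M.toLP))
  let N' : ALP α Empty := { N with U := {q | (sqK q).1 ∈ M.U} }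
  have h1 := fun w => gs_sim M w
  have hE : ∀ (w : List α) (t j : ℕ) (c : M.Q × Tape w.length M.B × List Γ),
      Run (gstep (ob w) ac (gs M.toLP)) (fun x => x.1 ∈ M.U)
        (M.init, tp0 w.length M.blank, []) t j c → t ≤ C ^ (w.length + 2) ∧ j < k := by
    intro w t j c hc
    obtain ⟨t3, x3, g5, _, g6⟩ := (h1 w).run (a₀ := M.start w.length) rfl le_rfl hc
    have g7 := hC w t3 j x3 g5
    exact ⟨by omega, g7.2⟩
  have h2 := fun w : List α => (ltp_sim (k := C) hT (good_lp hM w) (fun t j c hc =>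
    lt_of_le_of_lt (hE w t j c hc).1 (Nat.pow_lt_pow_left (by omega) (by omega)))).toTSim
  have h3 := fun w : List α => cntLP_sim (hK := hK) (hB := hB) (blank := M.blank)
    (init := (M.init, sh0 A)) (acc := {q : M.Q × BS Γ σ | q.1 ∈ M.acc}) (k := C)
    (stp := thinStp A (gs M.toLP)) {q | q.1 ∈ M.U} w
  obtain ⟨C', hC'⟩ := exp_time2 C
  refine ⟨N', ⟨h0, C', ?_⟩, ?_⟩
  · intro w t j c hc
    obtain ⟨t1, x1, g1, _, g2⟩ := (h3 w).run
      (a₀ := (SQ.main (M.init, sh0 A) (fun _ => true),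
      ⟨⟨0, by omega⟩, fun _ => (M.blank, false, fun _ => 0)⟩)) ⟨rfl, rfl⟩ le_rfl hc
    obtain ⟨t2, x2, n2, g3, _, g4⟩ := (h2 w).run ⟨_, .refl, ltp_start⟩ (Nat.zero_le _) g1
    obtain ⟨g5, g6⟩ := hE w t2 j x2 g3
    have g8 := hC' w.length
    have g9 := Nat.mul_le_mul_left (3 * (w.length + 2) + 5 + 1) g5
    exact ⟨by omega, g6⟩
  · ext w
    exact ((((h1 w).iff_acc (a := M.start w.length) rfl).trans
      ((h2 w).iff_acc ⟨_, .refl, ltp_start⟩)).trans
      ((h3 w).iff_acc (b := N'.start w.length) ⟨rfl, rfl⟩)).symm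

end Pool.Agent.V8H47.LB
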